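import Pool.Agent.Helper7.HL.Stmts

/-!
# Row BS2: the Schur expansion of `FB`
-/

namespace Pool.Agent.Helper12.HL

open Finset MvPolynomial
open Pool.Agent.Helper7.HL Pool.Agent.Helper32.HG

/-! ## highest weight lists -/

theorem hw_dec {N : ℕ} : ∀ {b : List (Finset ℕ)}, HW N b → ∀ i, i + 1 < N →
    wtc b (i + 1) ≤ wtc b i
  | [], _, i, _ => by simp [wtc]
  | _ :: _, h, i, hi => h.2 i hi

theorem wtc_cons (c : Finset ℕ) (b : List (Finset ℕ)) (i : ℕ) :
    wtc (c :: b) i = wtc b i + if i ∈ c then 1 else 0 := by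
  unfold wtc
  rw [List.countP_cons]
  simp

theorem hw_eps {N : ℕ} (h1 : ST_BL1) : ∀ {b : List (Finset ℕ)}, HW N b → ∀ i, i + 1 < N →
    eps i b = 0
  | [], _, i, _ => rfl
  | c :: b, h, i, hi => by
    have ih := hw_eps h1 h.1 i hi
    have hp := (h1 i b).1
    have hd := h.2 i hi
    rw [wtc_cons, wtc_cons] at hd
    rw [eps, ih, zero_add]
    unfold e1
    by_cases hc : i + 1 ∈ c ∧ i ∉ c
    · rw [if_pos hc]
      rw [if_pos hc.1, if_neg hc.2] at hd
      omega
    · rw [if_neg hc]
      omega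

/-- the shortest suffix which is not highest weight -/
noncomputable def nh (N : ℕ) : List (Finset ℕ) → List (Finset ℕ)
  | [] => []
  | c :: b => by
    classical
    exact if HW N b then c :: b else nh N b

theorem not_hw_append {N : ℕ} {y : List (Finset ℕ)} (hy : ¬ HW N y) :
    ∀ b1 : List (Finset ℕ), ¬ HW N (b1 ++ y)
  | [] => hy
  | _ :: b1 => fun h => not_hw_append hy b1 h.1

theorem nh_append {N : ℕ} {c : Finset ℕ} {b2 : List (Finset ℕ)} (h2 : HW N b2)
    (hy : ¬ HW N (c :: b2)) : ∀ b1 : List (Finset ℕ), nh N (b1 ++ c :: b2) = c :: b2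
  | [] => by
    rw [List.nil_append, nh, if_pos h2]
  | x :: b1 => by
    rw [List.cons_append, nh, if_neg (not_hw_append hy b1)]
    exact nh_append h2 hy b1

theorem nh_spec {N : ℕ} : ∀ {b : List (Finset ℕ)}, ¬ HW N b →
    ∃ (b1 : List (Finset ℕ)) (c : Finset ℕ) (b2 : List (Finset ℕ)), b = b1 ++ c :: b2 ∧
      HW N b2 ∧ ¬ HW N (c :: b2) ∧ nh N b = c :: b2
  | [], h => absurd trivial h
  | c :: b, h => by
    by_cases hb : HW N b
    · refine ⟨[], c, b, rfl, hb, h, ?_⟩
      rw [nh, if_pos hb]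
    · obtain ⟨b1, c', b2, e, h1, h2, h3⟩ := nh_spec hb
      refine ⟨c :: b1, c', b2, by rw [e]; rfl, h1, h2, ?_⟩
      rw [nh, if_neg hb]
      exact h3

/-- the first ascent -/
noncomputable def ia (N : ℕ) (y : List (Finset ℕ)) : ℕ :=
  sInf {i | i + 1 < N ∧ wtc y i < wtc y (i + 1)}

theorem ia_spec {N : ℕ} {c : Finset ℕ} {b2 : List (Finset ℕ)} (h2 : HW N b2)
    (hy : ¬ HW N (c :: b2)) : ia N (c :: b2) + 1 < N ∧
      wtc (c :: b2) (ia N (c :: b2)) < wtc (c :: b2) (ia N (c :: b2) + 1) := by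
  have hne : ({i | i + 1 < N ∧ wtc (c :: b2) i < wtc (c :: b2) (i + 1)} : Set ℕ).Nonempty := by
    by_contra hcon
    apply hy
    refine ⟨h2, fun i hi => ?_⟩
    by_contra h3
    exact hcon ⟨i, hi, not_le.1 h3⟩
  exact Nat.sInf_mem hne

theorem eps_append (i : ℕ) (y : List (Finset ℕ)) : ∀ b1 : List (Finset ℕ),
    eps i y ≤ eps i (b1 ++ y)
  | [] => le_rfl
  | c :: b1 => by
    rw [List.cons_append, eps]
    exact (eps_append i y b1).trans (Nat.le_add_right _ _)

theorem ia_phi {N : ℕ} (h1 : ST_BL1) {c : Finset ℕ} {b2 : List (Finset ℕ)} {i : ℕ}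
    (h2 : HW N b2) (hi : i + 1 < N) (hlt : wtc (c :: b2) i < wtc (c :: b2) (i + 1)) :
    phi i (c :: b2) = 0 ∧ eps i (c :: b2) = 1 := by
  have he := hw_eps h1 h2 i hi
  have hd := hw_dec h2 i hi
  have hp := (h1 i b2).1
  rw [wtc_cons, wtc_cons] at hlt
  by_cases c1 : i + 1 ∈ c
  · by_cases c2 : i ∈ c
    · rw [if_pos c1, if_pos c2] at hlt
      omega
    · rw [if_pos c1, if_neg c2] at hlt
      have h3 : phi i b2 = 0 := by omega
      rw [phi, eps, h3, he]
      unfold p1 e1
      rw [if_neg (fun h => c2 h.1), if_pos ⟨c1, c2⟩]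
      exact ⟨rfl, rfl⟩
  · rw [if_neg c1] at hlt
    split_ifs at hlt <;> omega

/-! ## alternants -/

theorem perm_mono {N : ℕ} (σ : Equiv.Perm (Fin N)) (h : StrictMono σ) : σ = 1 := by
  have h1 : ∀ i, i ≤ σ i := fun i => h.le_apply
  have h2 : StrictMono σ.symm := by
    intro a b hab
    by_contra hcon
    have h3 : σ.symm b ≤ σ.symm a := not_lt.1 hcon
    have h4 := h.monotone h3
    rw [Equiv.apply_symm_apply, Equiv.apply_symm_apply] at h4
    exact absurd hab (not_lt.2 h4)
  have h3 : ∀ i, σ i ≤ i := by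
    intro i
    have h4 : σ i ≤ σ.symm (σ i) := h2.le_apply
    rwa [Equiv.symm_apply_apply] at h4
  exact Equiv.ext fun i => le_antisymm (h3 i) (h1 i)

theorem coeff_hw (hAL1 : ST_AL1) {N : ℕ} {w μ : Fin N → ℕ} (hw : Antitone w) (hμ : Antitone μ) :
    coeff (ex (fun i => μ i + dl N i)) (altp N (Polynomial ℤ) (fun i => w i + dl N i))
      = if w = μ then 1 else 0 := by
  rw [(hAL1 N (Polynomial ℤ)).1]
  have hs : ∀ v : Fin N → ℕ, Antitone v → ∀ i j : Fin N, i < j →
      v j + dl N j < v i + dl N i := by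
    intro v hv i j hij
    have h1 := hv hij.le
    have h2 : i.val < j.val := hij
    have h3 := j.isLt
    unfold dl
    omega
  have h1 : ∀ σ : Equiv.Perm (Fin N), (fun i => μ i + dl N i) = (fun i => w i + dl N i) ∘ σ →
      σ = 1 := by
    intro σ hσ
    apply perm_mono
    intro i j hij
    by_contra hcon
    have h2 : σ j ≤ σ i := not_lt.1 hcon
    have h3 := hs μ hμ i j hij
    have h4 := congrFun hσ i
    have h5 := congrFun hσ j
    simp only [Function.comp_apply] at h4 h5
    rcases h2.lt_or_eq with h6 | h6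
    · have h7 := hs w hw _ _ h6
      omega
    · rw [h6] at h5
      omega
  rw [Finset.sum_eq_single 1]
  · by_cases hwm : w = μ
    · subst hwm
      rw [if_pos rfl, if_pos (by rfl)]
      simp
    · rw [if_neg hwm, if_neg]
      intro h
      apply hwm
      funext i
      have := congrFun h i
      simp only [Function.comp_apply, Equiv.Perm.one_apply] at this
      omega
  · intro σ _ hσ
    rw [if_neg]
    intro h
    exact hσ (h1 σ h)
  · intro h
    exact absurd (mem_univ _) h

theorem dop0_monomial (N : ℕ) (α : Fin N → ℕ) (a : Polynomial ℤ) :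
    Dop (0 : Polynomial ℤ) 0 0 N (monomial (ex α) a) = C a *
      altp N (Polynomial ℤ) (fun i => α i + dl N i) := by
  by_cases ha : a = 0
  · subst ha
    rw [monomial_zero]
    unfold Dop
    rw [support_zero, sum_empty, C_0, zero_mul]
  · unfold Dop
    rw [support_monomial, if_neg ha, sum_singleton, coeff_monomial, if_pos rfl]
    have h1 : ∏ i : Fin N, ((1 : Polynomial ℤ) - 0 * 0 ^ ((ex α) i) * 0 ^ (dl N i)) = 1 := by
      apply prod_eq_one
      intro i _
      ring
    rw [h1, mul_one]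
    rfl

theorem dop0_sum (hDC : ST_DC) {ι : Type*} (N : ℕ) (s : Finset ι)
    (f : ι → MvPolynomial (Fin N) (Polynomial ℤ)) :
    Dop (0 : Polynomial ℤ) 0 0 N (∑ b ∈ s, f b)
      = ∑ b ∈ s, Dop (0 : Polynomial ℤ) 0 0 N (f b) := by
  classical
  induction s using Finset.induction_on with
  | empty =>
    rw [sum_empty, sum_empty]
    unfold Dop
    rw [support_zero, sum_empty]
  | insert a s ha ih =>
    rw [sum_insert ha, sum_insert ha, (hDC N (Polynomial ℤ) 0 0 0).2.1, ih]

/-! ## the theorem -/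

theorem st_BS2 (hBS1 : ST_BS1) (hBRM : ST_BRM) (hBL1 : ST_BL1) (hAL1 : ST_AL1) (hDC : ST_DC) :
    ST_BS2 := by
  classical
  intro N cs μ hd hμ T hT
  set F : List (Finset ℕ) → Polynomial ℤ := fun b => Polynomial.X ^ DD N b *
    coeff (ex (fun i => μ i + dl N i))
      (altp N (Polynomial ℤ) (fun i => wtc b i.val + dl N i)) with hF
  have e1 : scf N μ (FB N cs) = ∑ b ∈ tl N cs, F b := by
    unfold scf
    rw [← (hDC N (Polynomial ℤ) 0 0 0).2.2.2 _ rfl (hBS1 N cs hd)]
    unfold FB
    rw [dop0_sum hDC, coeff_sum]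
    refine sum_congr rfl fun b _ => ?_
    rw [dop0_monomial, coeff_C_mul]
  have e2 : ∑ b ∈ (tl N cs).filter (fun b => ¬ HW N b), F b = 0 := by
    have main : ∀ b ∈ (tl N cs).filter (fun b => ¬ HW N b),
        ∃ i : ℕ, i + 1 < N ∧ ia N (nh N b) = i ∧ rfm i b ∈ tl N cs ∧ ¬ HW N (rfm i b) ∧
          rfm i (rfm i b) = b ∧ nh N (rfm i b) = nh N b ∧ wtc (rfm i b) i + 1 = wtc b (i + 1) ∧
          wtc (rfm i b) (i + 1) = wtc b i + 1 ∧
          (∀ j, j ≠ i → j ≠ i + 1 → wtc (rfm i b) j = wtc b j) ∧ DD N (rfm i b) = DD N b := by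
      intro b hb
      obtain ⟨hb1, hb2⟩ := mem_filter.1 hb
      obtain ⟨b1, c, b2, e, h1, h2, h3⟩ := nh_spec hb2
      obtain ⟨h4, h5⟩ := ia_spec h1 h2
      obtain ⟨h6, h7⟩ := ia_phi hBL1 h1 h4 h5
      have h8 : 0 < eps (ia N (c :: b2)) b := by
        have := eps_append (ia N (c :: b2)) (c :: b2) b1
        rw [← e, h7] at this
        omega
      obtain ⟨r1, r2, r3, r4, r5, r6, r7, r8⟩ := hBRM N (ia N (c :: b2)) cs b h4 hd hb1 h8
      obtain ⟨b3, _, e3⟩ := r8 b1 (c :: b2) e h6 h7
      refine ⟨ia N (c :: b2), h4, by rw [h3], r1, ?_, r3, ?_, r4, r5, r6, r7⟩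
      · rw [e3]
        exact not_hw_append h2 b3
      · rw [e3, h3]
        exact nh_append h1 h2 b3
    refine Finset.sum_involution (fun b _ => rfm (ia N (nh N b)) b) ?_ ?_ ?_ ?_
    · intro b hb
      obtain ⟨i, hi, e1, g1, g2, g3, g4, g5, g6, g7, g8⟩ := main b hb
      simp only [hF, e1]
      rw [g8, ← mul_add]
      have hP : i < N := by omega
      have hne : (⟨i, hP⟩ : Fin N) ≠ ⟨i + 1, hi⟩ := by
        intro h
        have := congrArg Fin.val h
        simp at this
      have h1 := (hAL1 N (Polynomial ℤ)).2.1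
        (fun p : Fin N => wtc b p.val + dl N p) (Equiv.swap ⟨i, hP⟩ ⟨i + 1, hi⟩)
      rw [Equiv.Perm.sign_swap hne] at h1
      have h2 : (fun p : Fin N => wtc (rfm i b) p.val + dl N p)
          = (fun p : Fin N => wtc b p.val + dl N p) ∘ (Equiv.swap ⟨i, hP⟩ ⟨i + 1, hi⟩) := by
        funext p
        simp only [Function.comp_apply]
        by_cases c1 : p = ⟨i, hP⟩
        · rw [c1, Equiv.swap_apply_left]
          simp only [dl]
          omega
        · by_cases c2 : p = ⟨i + 1, hi⟩
          · rw [c2, Equiv.swap_apply_right]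
            simp only [dl]
            omega
          · rw [Equiv.swap_apply_of_ne_of_ne c1 c2, g7]
            · intro h
              exact c1 (Fin.ext h)
            · intro h
              exact c2 (Fin.ext h)
      have h3 : altp N (Polynomial ℤ) (fun p : Fin N => wtc (rfm i b) p.val + dl N p)
          = - altp N (Polynomial ℤ) (fun p : Fin N => wtc b p.val + dl N p) := by
        rw [h2, h1]
        simp
      rw [h3, coeff_neg, add_neg_cancel, mul_zero]
    · intro b hb hne heq
      obtain ⟨i, hi, e1, g1, g2, g3, g4, g5, g6, g7, g8⟩ := main b hb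
      simp only [e1] at heq
      rw [heq] at g5 g6
      apply hne
      have hP : i < N := by omega
      have hne2 : (⟨i, hP⟩ : Fin N) ≠ ⟨i + 1, hi⟩ := by
        intro h
        have := congrArg Fin.val h
        simp at this
      have h1 : altp N (Polynomial ℤ) (fun p : Fin N => wtc b p.val + dl N p) = 0 := by
        refine (hAL1 N (Polynomial ℤ)).2.2.1 _ ⟨i, hP⟩ ⟨i + 1, hi⟩ hne2 ?_
        simp only [dl]
        omega
      simp only [hF]
      rw [h1, coeff_zero, mul_zero]
    · intro b hb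
      obtain ⟨i, hi, e1, g1, g2, g3, g4, g5, g6, g7, g8⟩ := main b hb
      simp only [e1]
      exact mem_filter.2 ⟨g1, g2⟩
    · intro b hb
      obtain ⟨i, hi, e1, g1, g2, g3, g4, g5, g6, g7, g8⟩ := main b hb
      simp only [e1, g4]
      exact g3
  have e3 : ∀ b ∈ (tl N cs).filter (fun b => HW N b),
      F b = if (fun i : Fin N => wtc b i.val) = μ then Polynomial.X ^ DD N b else 0 := by
    intro b hb
    obtain ⟨hb1, hb2⟩ := mem_filter.1 hb
    have hanti : Antitone (fun i : Fin N => wtc b i.val) := by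
      have h1 : ∀ k j : ℕ, j + k < N → wtc b (j + k) ≤ wtc b j := by
        intro k
        induction k with
        | zero => intro j _; exact le_rfl
        | succ k ih =>
          intro j hj
          exact (hw_dec hb2 (j + k) (by omega)).trans (ih j (by omega))
      intro i j hij
      have h2 : i.val ≤ j.val := hij
      have h3 := h1 (j.val - i.val) i.val (by have := j.isLt; omega)
      have h4 : i.val + (j.val - i.val) = j.val := by omega
      rw [h4] at h3
      exact h3
    simp only [hF]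
    rw [coeff_hw hAL1 hanti hμ]
    split_ifs
    · rw [mul_one]
    · rw [mul_zero]
  rw [e1, ← sum_filter_add_sum_filter_not (tl N cs) (fun b => HW N b), e2, add_zero,
    sum_congr rfl e3, ← sum_filter]
  refine sum_congr ?_ fun b _ => rfl
  ext b
  rw [mem_filter, mem_filter, hT]
  constructor
  · rintro ⟨⟨h1, h2⟩, h3⟩
    exact ⟨h1, h2, fun i => congrFun h3 i⟩
  · rintro ⟨h1, h2, h3⟩
    exact ⟨⟨h1, h2⟩, funext h3⟩

end Pool.Agent.Helper12.HL
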