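import Pool.Agent.Helper7.HL.Stmts

/-!
# Row BS3: the operator at `t = 0`, `v = 1` kills `FB`
-/

namespace Pool.Agent.Helper12.HL

open Finset MvPolynomial
open Pool.Agent.Helper7.HL Pool.Agent.Helper32.HG

/-! ## adjacent transpositions -/

theorem perm_gen {M : Type*} (m : ℕ) (G : Equiv.Perm (Fin (m + 1)) → M)
    (h : ∀ (σ : Equiv.Perm (Fin (m + 1))) (i : Fin m),
      G (Equiv.swap i.castSucc i.succ * σ) = G σ) : ∀ σ, G σ = G 1 := by
  have key : ∀ τ : Equiv.Perm (Fin (m + 1)), ∀ σ, G (τ * σ) = G σ := by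
    intro τ
    have hτ : τ ∈ Submonoid.closure
        (Set.range fun i : Fin m => Equiv.swap i.castSucc i.succ) := by
      rw [Equiv.Perm.mclosure_swap_castSucc_succ]
      trivial
    induction hτ using Submonoid.closure_induction with
    | mem x hx =>
      obtain ⟨i, rfl⟩ := hx
      intro σ
      exact h σ i
    | one =>
      intro σ
      rw [one_mul]
    | mul x y _ _ hx hy =>
      intro σ
      rw [mul_assoc, hx, hy]
  intro σ
  have := key σ 1
  rwa [mul_one] at this

/-! ## lists of columns -/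

theorem mem_tl_cons {N k : ℕ} {cs : List ℕ} {b : List (Finset ℕ)} (hb : b ∈ tl N (k :: cs)) :
    ∃ c b', b = c :: b' ∧ c ⊆ range N ∧ c.card = k ∧ b' ∈ tl N cs := by
  simp only [tl, mem_image, mem_product, mem_powersetCard] at hb
  obtain ⟨p, ⟨⟨h1, h2⟩, h3⟩, rfl⟩ := hb
  exact ⟨p.1, p.2, rfl, h1, h2, h3⟩

theorem tl_len {N : ℕ} : ∀ {cs : List ℕ} {b : List (Finset ℕ)}, b ∈ tl N cs →
    b.length = cs.length
  | [], b, hb => by
    simp only [tl, mem_singleton] at hb
    rw [hb]
    rfl
  | k :: cs, b, hb => by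
    obtain ⟨c, b', rfl, _, _, h⟩ := mem_tl_cons hb
    rw [List.length_cons, List.length_cons, tl_len h]

theorem tl_cols {N : ℕ} : ∀ {cs : List ℕ} {b : List (Finset ℕ)}, b ∈ tl N cs →
    (∀ c ∈ cs, c < N) → ∀ x ∈ b, x ⊆ range N ∧ x.card < N
  | [], b, hb, _ => by
    simp only [tl, mem_singleton] at hb
    rw [hb]
    intro x hx
    simp at hx
  | k :: cs, b, hb, hc => by
    obtain ⟨c, b', rfl, h1, h2, h⟩ := mem_tl_cons hb
    intro x hx
    rcases List.mem_cons.1 hx with rfl | hx
    · exact ⟨h1, by rw [h2]; exact hc k List.mem_cons_self⟩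
    · exact tl_cols h (fun c hcc => hc c (List.mem_cons_of_mem _ hcc)) x hx

theorem LL_len (N : ℕ) : ∀ b : List (Finset ℕ), (LL N b).length = b.length
  | [] => rfl
  | c :: b => by
    rw [LL, List.length_cons, List.length_cons, List.length_map, LL_len N b]

theorem LL_sub (N : ℕ) : ∀ b : List (Finset ℕ), (∀ x ∈ b, x ⊆ range N ∧ x.card < N) →
    ∀ x ∈ LL N b, x ⊆ range N ∧ x.card < N
  | [], _ => by
    intro x hx
    simp [LL] at hx
  | c :: b, h => by
    intro x hx
    rw [LL] at hx
    rcases List.mem_cons.1 hx with rfl | hx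
    · exact h _ List.mem_cons_self
    · obtain ⟨d, _, rfl⟩ := List.mem_map.1 hx
      have h1 := h c List.mem_cons_self
      have h2 : Rl N c d ⊆ c := sdiff_subset
      exact ⟨h2.trans h1.1, lt_of_le_of_lt (card_le_card h2) h1.2⟩

/-- the number of columns `L_r` which contain `0` -/
noncomputable def S0 (N : ℕ) (b : List (Finset ℕ)) : ℕ :=
  (LL N b).countP (fun x => decide (0 ∈ x))

theorem countP_congr' : ∀ {l1 l2 : List (Finset ℕ)}, l1.length = l2.length →
    (∀ (r : ℕ) (x y : Finset ℕ), l1[r]? = some x → l2[r]? = some y → (0 ∈ x ↔ 0 ∈ y)) →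
    l1.countP (fun x => decide (0 ∈ x)) = l2.countP (fun x => decide (0 ∈ x))
  | [], [], _, _ => rfl
  | [], y :: l2, h, _ => by simp at h
  | x :: l1, [], h, _ => by simp at h
  | x :: l1, y :: l2, h, hp => by
    rw [List.countP_cons, List.countP_cons]
    have h1 : (0 ∈ x ↔ 0 ∈ y) := hp 0 x y (by simp) (by simp)
    have h2 := countP_congr' (l1 := l1) (l2 := l2) (by simpa using h) (fun r x y hx hy =>
      hp (r + 1) x y (by simpa using hx) (by simpa using hy))
    rw [h2]
    simp only [decide_eq_true_eq, h1]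

theorem sum_rf0 {M : Type*} [AddCommMonoid M] (h0 : ST_BR0) {N i : ℕ} {cs : List ℕ}
    (hi : i + 1 < N) (hd : Dec cs) (f : List (Finset ℕ) → M) :
    ∑ b ∈ tl N cs, f (rf0 i b) = ∑ b ∈ tl N cs, f b := by
  refine Finset.sum_nbij' (rf0 i) (rf0 i) ?_ ?_ ?_ ?_ ?_
  · intro b hb
    exact (h0 N i cs b hi hd hb).1
  · intro b hb
    exact (h0 N i cs b hi hd hb).1
  · intro b hb
    exact (h0 N i cs b hi hd hb).2.1
  · intro b hb
    exact (h0 N i cs b hi hd hb).2.1
  · intro b _
    rfl

/-! ## the operator on monomials -/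

theorem dop_monomial (n : ℕ) (q : Polynomial ℤ) (α : Fin (n + 1) → ℕ) (a : Polynomial ℤ) :
    Dop q 0 1 (n + 1) (monomial (ex α) a) = C (a * (1 - q ^ (α (Fin.last n)))) *
      altp (n + 1) (Polynomial ℤ) (fun i => α i + dl (n + 1) i) := by
  have hprod : ∀ γ : Fin (n + 1) →₀ ℕ, ∏ i, (1 - 1 * q ^ (γ i) * 0 ^ (dl (n + 1) i))
      = 1 - q ^ (γ (Fin.last n)) := by
    intro γ
    rw [Fin.prod_univ_castSucc]
    have h1 : ∀ i : Fin n, (1 : Polynomial ℤ) - 1 * q ^ (γ i.castSucc) *
        0 ^ (dl (n + 1) i.castSucc) = 1 := by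
      intro i
      have h2 : dl (n + 1) i.castSucc ≠ 0 := by
        unfold dl
        have := i.isLt
        simp only [Fin.val_castSucc]
        omega
      rw [zero_pow h2]
      ring
    rw [prod_congr rfl (fun i _ => h1 i), prod_const_one, one_mul]
    have h3 : dl (n + 1) (Fin.last n) = 0 := by
      unfold dl
      simp
    rw [h3]
    ring
  by_cases ha : a = 0
  · subst ha
    rw [monomial_zero]
    unfold Dop
    rw [support_zero, sum_empty, zero_mul, C_0, zero_mul]
  · unfold Dop
    rw [support_monomial, if_neg ha, sum_singleton, hprod, coeff_monomial, if_pos rfl]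
    rfl

theorem dop_sum (hDC : ST_DC) {ι : Type*} (n : ℕ) (q : Polynomial ℤ) (s : Finset ι)
    (f : ι → MvPolynomial (Fin (n + 1)) (Polynomial ℤ)) :
    Dop q 0 1 (n + 1) (∑ b ∈ s, f b) = ∑ b ∈ s, Dop q 0 1 (n + 1) (f b) := by
  classical
  induction s using Finset.induction_on with
  | empty =>
    rw [sum_empty, sum_empty]
    unfold Dop
    rw [support_zero, sum_empty]
  | insert a s ha ih =>
    rw [sum_insert ha, sum_insert ha, (hDC (n + 1) (Polynomial ℤ) q 0 1).2.1, ih]

/-- the alternant of a weight -/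
noncomputable def Aw (n : ℕ) (w : Fin (n + 1) → ℕ) : MvPolynomial (Fin (n + 1)) (Polynomial ℤ) :=
  altp (n + 1) (Polynomial ℤ) (fun i => w i + dl (n + 1) i)

/-! ## the two symmetrizations -/

theorem sym_full (h0 : ST_BR0) (n : ℕ) (cs : List ℕ) (hd : Dec cs) :
    ∑ b ∈ tl (n + 1) cs, C ((Polynomial.X : Polynomial ℤ) ^ DD (n + 1) b) *
        Aw n (fun i => wtc b i.val)
      = ∑ b ∈ tl (n + 1) cs, C ((Polynomial.X : Polynomial ℤ) ^ DD (n + 1) b) *
        Aw n (fun i => wtc b (n - i.val)) := by
  have key := perm_gen n (fun σ => ∑ b ∈ tl (n + 1) cs,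
    C ((Polynomial.X : Polynomial ℤ) ^ DD (n + 1) b) * Aw n (fun i => wtc b (σ i).val)) (by
      intro σ i
      have hi : i.val + 1 < n + 1 := by
        have := i.isLt
        omega
      rw [← sum_rf0 h0 hi hd (fun b => C ((Polynomial.X : Polynomial ℤ) ^ DD (n + 1) b) *
        Aw n (fun i => wtc b (σ i).val))]
      refine sum_congr rfl fun b hb => ?_
      obtain ⟨_, _, w1, w2, w3, w4, _⟩ := h0 (n + 1) i.val cs b hi hd hb
      rw [w4]
      have hw : (fun p : Fin (n + 1) => wtc b ((Equiv.swap i.castSucc i.succ * σ) p).val)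
          = fun p => wtc (rf0 i.val b) (σ p).val := by
        funext p
        rw [Equiv.Perm.mul_apply]
        by_cases c1 : σ p = i.castSucc
        · rw [c1, Equiv.swap_apply_left]
          simp only [Fin.val_succ, Fin.val_castSucc]
          exact w1.symm
        · by_cases c2 : σ p = i.succ
          · rw [c2, Equiv.swap_apply_right]
            simp only [Fin.val_succ, Fin.val_castSucc]
            exact w2.symm
          · rw [Equiv.swap_apply_of_ne_of_ne c1 c2]
            refine (w3 _ ?_ ?_).symm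
            · intro h
              exact c1 (Fin.ext h)
            · intro h
              exact c2 (Fin.ext h)
      rw [hw])
  have h1 := key Fin.revPerm
  simp only [Equiv.Perm.one_apply, Fin.revPerm_apply, Fin.val_rev] at h1
  have h2 : ∀ i : Fin (n + 1), n + 1 - (i.val + 1) = n - i.val := fun i => by omega
  simp only [h2] at h1
  exact h1.symm

/-- the weight with the last entry `wt_0` and the others permuted -/
noncomputable def Wt (n : ℕ) (σ : Equiv.Perm (Fin n)) (b : List (Finset ℕ))
    (i : Fin (n + 1)) : ℕ :=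
  if h : i.val < n then wtc b ((σ ⟨i.val, h⟩).val + 1) else wtc b 0

theorem sym_part (h0 : ST_BR0) : ∀ (n : ℕ) (cs : List ℕ), Dec cs →
    ∑ b ∈ tl (n + 1) cs, C ((Polynomial.X : Polynomial ℤ) ^ (DD (n + 1) b + S0 (n + 1) b)) *
        Aw n (Wt n 1 b)
      = ∑ b ∈ tl (n + 1) cs,
        C ((Polynomial.X : Polynomial ℤ) ^ (DD (n + 1) b + S0 (n + 1) b)) *
        Aw n (fun i => wtc b (n - i.val))
  | 0, cs, hd => by
    refine sum_congr rfl fun b _ => ?_
    have : Wt 0 1 b = fun i : Fin (0 + 1) => wtc b (0 - i.val) := by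
      funext i
      unfold Wt
      rw [dif_neg (by omega)]
      simp
    rw [this]
  | m + 1, cs, hd => by
    have key := perm_gen m (fun σ => ∑ b ∈ tl (m + 1 + 1) cs,
      C ((Polynomial.X : Polynomial ℤ) ^ (DD (m + 1 + 1) b + S0 (m + 1 + 1) b)) *
        Aw (m + 1) (Wt (m + 1) σ b)) (by
        intro σ i
        have hi : (i.val + 1) + 1 < m + 1 + 1 := by
          have := i.isLt
          omega
        rw [← sum_rf0 h0 hi hd (fun b =>
          C ((Polynomial.X : Polynomial ℤ) ^ (DD (m + 1 + 1) b + S0 (m + 1 + 1) b)) *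
          Aw (m + 1) (Wt (m + 1) σ b))]
        refine sum_congr rfl fun b hb => ?_
        obtain ⟨w0, _, w1, w2, w3, w4, w5⟩ := h0 (m + 1 + 1) (i.val + 1) cs b hi hd hb
        have hS : S0 (m + 1 + 1) (rf0 (i.val + 1) b) = S0 (m + 1 + 1) b := by
          unfold S0
          refine (countP_congr' ?_ ?_).symm
          · rw [LL_len, LL_len, tl_len hb, tl_len w0]
          · intro r x y hx hy
            exact w5 r 0 x y (by omega) (by omega) hx hy
        have hw : Wt (m + 1) (Equiv.swap i.castSucc i.succ * σ) b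
            = Wt (m + 1) σ (rf0 (i.val + 1) b) := by
          funext p
          unfold Wt
          by_cases hp : p.val < m + 1
          · rw [dif_pos hp, dif_pos hp, Equiv.Perm.mul_apply]
            by_cases c1 : σ ⟨p.val, hp⟩ = i.castSucc
            · rw [c1, Equiv.swap_apply_left]
              simp only [Fin.val_succ, Fin.val_castSucc]
              exact w1.symm
            · by_cases c2 : σ ⟨p.val, hp⟩ = i.succ
              · rw [c2, Equiv.swap_apply_right]
                simp only [Fin.val_succ, Fin.val_castSucc]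
                exact w2.symm
              · rw [Equiv.swap_apply_of_ne_of_ne c1 c2]
                refine (w3 _ ?_ ?_).symm
                · intro h
                  exact c1 (Fin.ext (by simpa using h))
                · intro h
                  exact c2 (Fin.ext (by simpa using h))
          · rw [dif_neg hp, dif_neg hp]
            exact (w3 0 (by omega) (by omega)).symm
        rw [w4, hS, hw])
    have h1 := key Fin.revPerm
    rw [← h1]
    refine sum_congr rfl fun b _ => ?_
    have hw : Wt (m + 1) Fin.revPerm b = fun i => wtc b (m + 1 - i.val) := by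
      funext p
      unfold Wt
      by_cases hp : p.val < m + 1
      · rw [dif_pos hp]
        have : (Fin.revPerm (⟨p.val, hp⟩ : Fin (m + 1))).val + 1 = m + 1 - p.val := by
          simp only [Fin.revPerm_apply, Fin.val_rev]
          omega
        rw [this]
      · rw [dif_neg hp]
        have : m + 1 - p.val = 0 := by
          have := p.isLt
          omega
        rw [this]
    rw [hw]

/-! ## rotation -/

theorem rot (h4 : ST_BL4) (n : ℕ) (cs : List ℕ) (hd : Dec cs) (hc : ∀ c ∈ cs, c < n + 1) :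
    ∑ b ∈ tl (n + 1) cs, C ((Polynomial.X : Polynomial ℤ) ^ (DD (n + 1) b + wtc b n)) *
        Aw n (fun i => wtc b i.val)
      = ∑ b ∈ tl (n + 1) cs,
        C ((Polynomial.X : Polynomial ℤ) ^ (DD (n + 1) b + S0 (n + 1) b)) *
        Aw n (Wt n 1 b) := by
  obtain ⟨hr, hbij⟩ := h4 (n + 1) cs (Nat.succ_pos n) hd
  refine Finset.sum_nbij (fun b : List (Finset ℕ) => b.map (rt (n + 1))) ?_ hbij.injOn
    hbij.surjOn ?_
  · intro b hb
    exact hbij.mapsTo hb
  · intro b hb
    obtain ⟨r1, r2, r3, r4⟩ := hr b hb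
    have hS : S0 (n + 1) (b.map (rt (n + 1)))
        = (LL (n + 1) b).countP (fun x => decide (n + 1 - 1 ∈ x)) := by
      unfold S0
      rw [r2, List.countP_map]
      refine List.countP_congr ?_
      intro x hx
      have hx2 := (LL_sub (n + 1) b (tl_cols hb hc) x hx).1
      simp only [Function.comp_apply, decide_eq_true_eq, rt, mem_image]
      constructor
      · rintro ⟨a, ha, h⟩
        have ha2 := mem_range.1 (hx2 ha)
        have h3 : a = n := by
          by_contra hne
          have : a + 1 < n + 1 := by omega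
          rw [Nat.mod_eq_of_lt this] at h
          omega
        rw [h3] at ha
        simpa using ha
      · intro h
        refine ⟨n, by simpa using h, ?_⟩
        exact Nat.mod_self (n + 1)
    have hw : Wt n 1 (b.map (rt (n + 1))) = fun i : Fin (n + 1) => wtc b i.val := by
      funext p
      have h5 := r4 p.val p.isLt
      unfold Wt
      by_cases hp : p.val < n
      · rw [dif_pos hp]
        simp only [Equiv.Perm.one_apply]
        rw [Nat.mod_eq_of_lt (by omega)] at h5
        exact h5
      · rw [dif_neg hp]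
        have h6 : p.val = n := by
          have := p.isLt
          omega
        rw [h6, Nat.mod_self] at h5
        rw [h5, h6]
    have hD : DD (n + 1) b + wtc b n
        = DD (n + 1) (b.map (rt (n + 1))) + S0 (n + 1) (b.map (rt (n + 1))) := by
      rw [hS, r3]
      simp
    rw [hw, hD]

/-! ## the telescoping sum -/

open Classical in
theorem tele : ∀ l : List (Finset ℕ), l.Pairwise (fun x y => y ⊆ x) →
    (1 : Polynomial ℤ) - Polynomial.X ^ (l.countP (fun x => decide (0 ∈ x)))
      = ∑ r ∈ range l.length, if (∃ x, l[r]? = some x ∧ 0 ∈ x) then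
          ((Polynomial.X : Polynomial ℤ) ^ r - Polynomial.X ^ (r + 1)) else 0
  | [], _ => by simp
  | a :: l, h => by
    obtain ⟨h1, h2⟩ := List.pairwise_cons.1 h
    rw [List.length_cons, sum_range_succ']
    by_cases ha : 0 ∈ a
    · have e1 : (a :: l).countP (fun x => decide (0 ∈ x))
          = l.countP (fun x => decide (0 ∈ x)) + 1 := by
        rw [List.countP_cons]
        simp [ha]
      have e2 : ∀ r, (∃ x, (a :: l)[r + 1]? = some x ∧ 0 ∈ x) ↔ (∃ x, l[r]? = some x ∧ 0 ∈ x) := by
        intro r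
        simp
      have e3 : (∃ x, (a :: l)[0]? = some x ∧ 0 ∈ x) := ⟨a, by simp, ha⟩
      rw [e1, if_pos e3]
      have e4 : ∑ r ∈ range l.length, (if (∃ x, (a :: l)[r + 1]? = some x ∧ 0 ∈ x) then
          ((Polynomial.X : Polynomial ℤ) ^ (r + 1) - Polynomial.X ^ (r + 1 + 1)) else 0)
          = Polynomial.X * ∑ r ∈ range l.length, (if (∃ x, l[r]? = some x ∧ 0 ∈ x) then
          ((Polynomial.X : Polynomial ℤ) ^ r - Polynomial.X ^ (r + 1)) else 0) := by
        rw [mul_sum]
        refine sum_congr rfl fun r _ => ?_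
        by_cases hr : (∃ x, l[r]? = some x ∧ 0 ∈ x)
        · rw [if_pos ((e2 r).2 hr), if_pos hr]
          ring
        · rw [if_neg (fun h => hr ((e2 r).1 h)), if_neg hr, mul_zero]
      rw [e4, ← tele l h2]
      ring
    · have hz : ∀ x ∈ l, 0 ∉ x := fun x hx h0 => ha (h1 x hx h0)
      have e1 : (a :: l).countP (fun x => decide (0 ∈ x)) = 0 := by
        rw [List.countP_eq_zero]
        intro x hx
        rcases List.mem_cons.1 hx with rfl | hx
        · simpa using ha
        · simpa using hz x hx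
      have e2 : ∀ r, ¬ (∃ x, (a :: l)[r + 1]? = some x ∧ 0 ∈ x) := by
        rintro r ⟨x, hx, h0⟩
        have hx' : l[r]? = some x := by simpa using hx
        exact hz x (List.mem_of_getElem? hx') h0
      have e3 : ¬ (∃ x, (a :: l)[0]? = some x ∧ 0 ∈ x) := by
        rintro ⟨x, hx, h0⟩
        have : a = x := by simpa using hx
        rw [← this] at h0
        exact ha h0
      rw [e1, if_neg e3, sum_eq_zero (fun r _ => if_neg (e2 r))]
      simp

/-! ## the sign reversing involution -/

/-- the first `i` with `i ∈ x`, `i + 1 ∉ x` -/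
noncomputable def fi (x : Finset ℕ) : ℕ := sInf {i | i ∈ x ∧ i + 1 ∉ x}

theorem fi_spec {N : ℕ} {x : Finset ℕ} (hx : x ⊆ range N) (hc : x.card < N) (h0 : 0 ∈ x) :
    fi x ∈ x ∧ fi x + 1 ∉ x ∧ fi x + 1 < N := by
  have hne : ({i | i ∈ x ∧ i + 1 ∉ x} : Set ℕ).Nonempty := by
    by_contra hcon
    have h1 : ∀ i ∈ x, i + 1 ∈ x := by
      intro i hi
      by_contra h2
      exact hcon ⟨i, hi, h2⟩
    have h2 := x.max'_mem ⟨0, h0⟩
    have h3 := x.le_max' _ (h1 _ h2)
    omega
  have h1 := Nat.sInf_mem hne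
  have h2 : fi x ∈ x ∧ fi x + 1 ∉ x := h1
  refine ⟨h2.1, h2.2, ?_⟩
  by_contra h3
  have h4 := mem_range.1 (hx h2.1)
  have h5 : ∀ j, j ≤ fi x → j ∈ x := by
    intro j
    induction j with
    | zero => intro _; exact h0
    | succ j ih =>
      intro hj
      by_contra h6
      have h7 : j ∈ ({i | i ∈ x ∧ i + 1 ∉ x} : Set ℕ) := ⟨ih (by omega), h6⟩
      have h8 : fi x ≤ j := Nat.sInf_le h7
      omega
  have h6 : range N ⊆ x := by
    intro j hj
    have := mem_range.1 hj
    exact h5 j (by omega)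
  have h7 := card_le_card h6
  rw [card_range] at h7
  omega

theorem phi_head (i : ℕ) (x : Finset ℕ) (z : List (Finset ℕ)) (h1 : i ∈ x) (h2 : i + 1 ∉ x) :
    0 < phi i (x :: z) := by
  rw [phi, p1, if_pos ⟨h1, h2⟩]
  omega

open Classical in
theorem inner_zero (hBL2 : ST_BL2) (hBRP : ST_BRP) (hAL1 : ST_AL1) (n r : ℕ) (cs : List ℕ)
    (hd : Dec cs) (hc : ∀ c ∈ cs, c < n + 1) (hr : r < cs.length) :
    ∑ b ∈ (tl (n + 1) cs).filter (fun b => ∃ x, (LL (n + 1) b)[r]? = some x ∧ 0 ∈ x),
      C ((Polynomial.X : Polynomial ℤ) ^ DD (n + 1) b) * Aw n (fun i => wtc b (n - i.val)) = 0 := by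
  have main : ∀ b ∈ (tl (n + 1) cs).filter
      (fun b => ∃ x, (LL (n + 1) b)[r]? = some x ∧ 0 ∈ x),
      ∃ i : ℕ, i + 1 < n + 1 ∧ fi (((LL (n + 1) b)[r]?).getD ∅) = i ∧ rfp i b ∈ tl (n + 1) cs ∧
        rfp i (rfp i b) = b ∧ (LL (n + 1) (rfp i b))[r]? = (LL (n + 1) b)[r]? ∧
        wtc (rfp i b) i = wtc b (i + 1) + 1 ∧ wtc (rfp i b) (i + 1) + 1 = wtc b i ∧
        (∀ j, j ≠ i → j ≠ i + 1 → wtc (rfp i b) j = wtc b j) ∧
        DD (n + 1) (rfp i b) = DD (n + 1) b := by
    intro b hb
    obtain ⟨hb1, x, hx, h0⟩ := mem_filter.1 hb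
    have hxs := LL_sub (n + 1) b (tl_cols hb1 hc) x (List.mem_of_getElem? hx)
    obtain ⟨f1, f2, f3⟩ := fi_spec hxs.1 hxs.2 h0
    obtain ⟨m1, m2, _⟩ := hBL2 (n + 1) (fi x) r cs b f3 hd hb1 hr
    have hphi : 0 < phi (fi x) b := by
      rw [← m2]
      rw [hx] at m1
      cases hm : mv (n + 1) r b with
      | nil =>
        rw [hm] at m1
        simp at m1
      | cons y z =>
        rw [hm] at m1
        have : y = x := by simpa using m1
        rw [this]
        exact phi_head _ _ _ f1 f2
    obtain ⟨b1, b2, b3, b4, b5, b6, b7, b8⟩ := hBRP (n + 1) (fi x) cs b f3 hd hb1 hphi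
    refine ⟨fi x, f3, ?_, b1, b3, ?_, b4, b5, b6, b7⟩
    · rw [hx]
      rfl
    · rw [hx]
      exact b8 r x hx f1 f2
  refine Finset.sum_involution
    (fun b _ => rfp (fi (((LL (n + 1) b)[r]?).getD ∅)) b) ?_ ?_ ?_ ?_
  · intro b hb
    obtain ⟨i, hi, e1, e2, e3, e4, e5, e6, e7, e8⟩ := main b hb
    simp only [e1]
    rw [e8, ← mul_add]
    have hA : Aw n (fun p => wtc (rfp i b) (n - p.val)) = - Aw n (fun p => wtc b (n - p.val)) := by
      have hP : n - i < n + 1 := by omega
      have hQ : n - (i + 1) < n + 1 := by omega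
      have hne : (⟨n - i, hP⟩ : Fin (n + 1)) ≠ ⟨n - (i + 1), hQ⟩ := by
        intro h
        have := congrArg Fin.val h
        simp only at this
        omega
      have h1 := (hAL1 (n + 1) (Polynomial ℤ)).2.1
        (fun p : Fin (n + 1) => wtc b (n - p.val) + dl (n + 1) p)
        (Equiv.swap ⟨n - i, hP⟩ ⟨n - (i + 1), hQ⟩)
      rw [Equiv.Perm.sign_swap hne] at h1
      unfold Aw
      have h2 : (fun p : Fin (n + 1) => wtc (rfp i b) (n - p.val) + dl (n + 1) p)
          = (fun p : Fin (n + 1) => wtc b (n - p.val) + dl (n + 1) p) ∘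
            (Equiv.swap ⟨n - i, hP⟩ ⟨n - (i + 1), hQ⟩) := by
        funext p
        simp only [Function.comp_apply]
        by_cases c1 : p = ⟨n - i, hP⟩
        · rw [c1, Equiv.swap_apply_left]
          simp only [dl]
          have a1 : n - (n - i) = i := by omega
          have a2 : n - (n - (i + 1)) = i + 1 := by omega
          have a3 : n + 1 - 1 - (n - i) = i := by omega
          have a4 : n + 1 - 1 - (n - (i + 1)) = i + 1 := by omega
          rw [a1, a2, a3, a4, e5]
          omega
        · by_cases c2 : p = ⟨n - (i + 1), hQ⟩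
          · rw [c2, Equiv.swap_apply_right]
            simp only [dl]
            have a1 : n - (n - i) = i := by omega
            have a2 : n - (n - (i + 1)) = i + 1 := by omega
            have a3 : n + 1 - 1 - (n - i) = i := by omega
            have a4 : n + 1 - 1 - (n - (i + 1)) = i + 1 := by omega
            rw [a1, a2, a3, a4]
            omega
          · rw [Equiv.swap_apply_of_ne_of_ne c1 c2, e7]
            · intro h
              apply c1
              apply Fin.ext
              have := p.isLt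
              simp only
              omega
            · intro h
              apply c2
              apply Fin.ext
              have := p.isLt
              simp only
              omega
      rw [h2, h1]
      simp
    rw [hA, add_neg_cancel, mul_zero]
  · intro b hb hne heq
    obtain ⟨i, hi, e1, e2, e3, e4, e5, e6, e7, e8⟩ := main b hb
    simp only [e1] at heq
    rw [heq] at e5 e6
    apply hne
    have hP : n - i < n + 1 := by omega
    have hQ : n - (i + 1) < n + 1 := by omega
    have hne2 : (⟨n - i, hP⟩ : Fin (n + 1)) ≠ ⟨n - (i + 1), hQ⟩ := by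
      intro h
      have := congrArg Fin.val h
      simp only at this
      omega
    have h1 : Aw n (fun p => wtc b (n - p.val)) = 0 := by
      unfold Aw
      refine (hAL1 (n + 1) (Polynomial ℤ)).2.2.1 _ ⟨n - i, hP⟩ ⟨n - (i + 1), hQ⟩ hne2 ?_
      simp only [dl]
      have a1 : n - (n - i) = i := by omega
      have a2 : n - (n - (i + 1)) = i + 1 := by omega
      have a3 : n + 1 - 1 - (n - i) = i := by omega
      have a4 : n + 1 - 1 - (n - (i + 1)) = i + 1 := by omega
      rw [a1, a2, a3, a4]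
      omega
    rw [h1, mul_zero]
  · intro b hb
    obtain ⟨i, hi, e1, e2, e3, e4, e5, e6, e7, e8⟩ := main b hb
    simp only [e1]
    refine mem_filter.2 ⟨e2, ?_⟩
    rw [e4]
    exact (mem_filter.1 hb).2
  · intro b hb
    obtain ⟨i, hi, e1, e2, e3, e4, e5, e6, e7, e8⟩ := main b hb
    simp only [e1, e4]
    exact e3

/-! ## the theorem -/

theorem st_BS3 (hBR0 : ST_BR0) (hBRP : ST_BRP) (hBL2 : ST_BL2) (hBL4 : ST_BL4) (hBW3 : ST_BW3)
    (hAL1 : ST_AL1) (hDC : ST_DC) : ST_BS3 := by
  classical
  intro N cs hd hN hc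
  obtain ⟨n, rfl⟩ : ∃ n, N = n + 1 := ⟨N - 1, by omega⟩
  have e1 : Dop (Polynomial.X : Polynomial ℤ) 0 1 (n + 1) (FB (n + 1) cs)
      = ∑ b ∈ tl (n + 1) cs, C ((Polynomial.X : Polynomial ℤ) ^ DD (n + 1) b *
        (1 - Polynomial.X ^ (wtc b n))) * Aw n (fun i => wtc b i.val) := by
    unfold FB
    rw [dop_sum hDC]
    refine sum_congr rfl fun b _ => ?_
    rw [dop_monomial]
    rfl
  have e2 : ∑ b ∈ tl (n + 1) cs, C ((Polynomial.X : Polynomial ℤ) ^ DD (n + 1) b *
        (1 - Polynomial.X ^ (wtc b n))) * Aw n (fun i => wtc b i.val)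
      = ∑ b ∈ tl (n + 1) cs, C ((Polynomial.X : Polynomial ℤ) ^ DD (n + 1) b) *
        Aw n (fun i => wtc b i.val)
      - ∑ b ∈ tl (n + 1) cs, C ((Polynomial.X : Polynomial ℤ) ^ (DD (n + 1) b + wtc b n)) *
        Aw n (fun i => wtc b i.val) := by
    rw [← sum_sub_distrib]
    refine sum_congr rfl fun b _ => ?_
    rw [← sub_mul, ← C_sub]
    congr 2
    ring
  have e3 : ∑ b ∈ tl (n + 1) cs, C ((Polynomial.X : Polynomial ℤ) ^ DD (n + 1) b) *
        Aw n (fun i => wtc b (n - i.val))
      - ∑ b ∈ tl (n + 1) cs,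
        C ((Polynomial.X : Polynomial ℤ) ^ (DD (n + 1) b + S0 (n + 1) b)) *
        Aw n (fun i => wtc b (n - i.val))
      = ∑ b ∈ tl (n + 1) cs, ∑ r ∈ range cs.length,
        if (∃ x, (LL (n + 1) b)[r]? = some x ∧ 0 ∈ x) then
          C ((Polynomial.X : Polynomial ℤ) ^ r - Polynomial.X ^ (r + 1)) *
          (C ((Polynomial.X : Polynomial ℤ) ^ DD (n + 1) b) * Aw n (fun i => wtc b (n - i.val)))
        else 0 := by
    rw [← sum_sub_distrib]
    refine sum_congr rfl fun b hb => ?_
    have h1 := tele (LL (n + 1) b) ((hBW3 (n + 1)).2 b)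
    rw [LL_len, tl_len hb] at h1
    have h2 : C ((Polynomial.X : Polynomial ℤ) ^ DD (n + 1) b) * Aw n (fun i => wtc b (n - i.val))
        - C ((Polynomial.X : Polynomial ℤ) ^ (DD (n + 1) b + S0 (n + 1) b)) *
          Aw n (fun i => wtc b (n - i.val))
        = C ((1 : Polynomial ℤ) - Polynomial.X ^ (S0 (n + 1) b)) *
          (C ((Polynomial.X : Polynomial ℤ) ^ DD (n + 1) b) *
            Aw n (fun i => wtc b (n - i.val))) := by
      rw [pow_add, C_mul, C_sub, C_1]
      ring
    rw [h2]
    unfold S0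
    rw [h1, map_sum, sum_mul]
    refine sum_congr rfl fun r _ => ?_
    by_cases hr : (∃ x, (LL (n + 1) b)[r]? = some x ∧ 0 ∈ x)
    · rw [if_pos hr, if_pos hr]
    · rw [if_neg hr, if_neg hr, C_0, zero_mul]
  rw [e1, e2, sym_full hBR0 n cs hd, rot hBL4 n cs hd hc, sym_part hBR0 n cs hd, e3, sum_comm]
  refine sum_eq_zero fun r hr => ?_
  rw [← sum_filter, ← mul_sum, inner_zero hBL2 hBRP hAL1 n r cs hd hc (mem_range.1 hr), mul_zero]

end Pool.Agent.Helper12.HL
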